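import Pool.Agent.Helper62.BX.Stm
import Pool.Graph.R_pool_sql_team_seeded_3997aac3.Q267.AP.LS
import Pool.Graph.R_pool_sql_team_seeded_3997aac3.Q102.AP.Larger
import Pool.Graph.R_pool_sql_team_seeded_3997aac3.Q102.AP.Mert

/-!
# The larger sieve for families of conditions at places, with uniform constants
-/

set_option autoImplicit false

open Finset

namespace Pool.Agent.Helper13.BX

open NumberField IsDedekindDomain Filter Topology
open Pool.Agent.Q267.OD (allP)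
open Pool.Agent.Q267.AP

open Classical in
/-- **The larger sieve, uniform constants.** -/
theorem ls_unif (hLarger : S_Larger) (hScale : S_Scale) (hMert : S_Mert) (K : Type) [Field K]
    [NumberField K] (η δ : ℝ) (hη : 0 < η) (hδ : 0 < δ) :
    ∃ ε : ℝ, 0 < ε ∧ ∀ E₀ : Finset (HeightOneSpectrum (𝓞 K)), ∃ C : ℝ, 0 < C ∧
      ∀ B : ℕ → HeightOneSpectrum (𝓞 K) → Prop,
      (∀ t (v : HeightOneSpectrum (𝓞 K)), (Ideal.absNorm v.asIdeal).Prime →
        (B t v ↔ B (t % Ideal.absNorm v.asIdeal) v)) →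
      (∀ v : HeightOneSpectrum (𝓞 K), (Ideal.absNorm v.asIdeal).Prime → v ∉ E₀ →
        (((range (Ideal.absNorm v.asIdeal)).filter fun t : ℕ => B t v).card : ℝ) ≤
          ε * Ideal.absNorm v.asIdeal) →
      ∀ X Q₀ Q₁ : ℕ, 1 ≤ Q₀ → (X : ℝ) ^ δ * Q₀ ≤ Q₁ → ∀ E : Finset ℕ,
      (∀ t ∈ E, 1 ≤ t ∧ t ≤ X ∧ η * (scales Q₀ Q₁).card ≤
        ((scales Q₀ Q₁).filter fun j =>
          η * allP K (2 ^ j) < ((pls K (2 ^ j)).filter fun v => B t v).card).card) →
      (E.card : ℝ) ≤ C * Q₁ := by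
  obtain ⟨κ, C₁, hκ, hsc⟩ := hScale K η hη
  obtain ⟨CM, hCM⟩ := hMert K
  have hlog : 0 < Real.log 2 := Real.log_pos (by norm_num)
  have hlog1 : Real.log 2 ≤ 1 := by
    have := Real.log_two_lt_d9
    linarith
  obtain ⟨c, hc⟩ : ∃ c : ℝ, c = max CM 1 := ⟨_, rfl⟩
  have hc0 : 0 < c := by rw [hc]; exact lt_of_lt_of_le one_pos (le_max_right _ _)
  have hcM : CM ≤ c := by rw [hc]; exact le_max_left _ _
  obtain ⟨d, hd⟩ : ∃ d : ℕ, d = Module.finrank ℚ K := ⟨_, rfl⟩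
  have hd0 : (0 : ℝ) < d := by
    rw [hd]
    exact_mod_cast Module.finrank_pos
  obtain ⟨ε, hε⟩ : ∃ ε : ℝ, ε = κ ^ 2 * δ ^ 2 / (64 * (c * d)) := ⟨_, rfl⟩
  have hε0 : 0 < ε := by rw [hε]; positivity
  set a : HeightOneSpectrum (𝓞 K) → ℝ := fun v =>
    Real.log (Ideal.absNorm v.asIdeal) / Ideal.absNorm v.asIdeal with ha
  have ha0 : ∀ v, 0 ≤ a v := fun v => by
    have : 0 ≤ Real.log (Ideal.absNorm v.asIdeal) := Real.log_natCast_nonneg _
    positivity
  refine ⟨ε, hε0, fun F => ?_⟩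
  obtain ⟨CF, hCF⟩ : ∃ CF : ℝ, CF = ∑ v ∈ F, a v := ⟨_, rfl⟩
  obtain ⟨C₂, hC₂⟩ : ∃ C₂ : ℝ, C₂ = C₁ + CM + CF + κ := ⟨_, rfl⟩
  -- the threshold for `X`
  obtain ⟨L₀, hL₀⟩ : ∃ L₀ : ℝ, L₀ = max 1 (2 * C₂ / (κ * δ)) := ⟨_, rfl⟩
  refine ⟨max 2 (Real.exp L₀), lt_of_lt_of_le two_pos (le_max_left _ _), ?_⟩
  intro B hper hfew X Q₀ Q₁ hQ₀ hQ E hE
  have hEX : (E.card : ℝ) ≤ X := by
    have h1 : E ⊆ Icc 1 X := fun t ht => mem_Icc.mpr ⟨(hE t ht).1, (hE t ht).2.1⟩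
    have h2 := card_le_card h1
    rw [Nat.card_Icc, Nat.add_sub_cancel] at h2
    exact_mod_cast h2
  have hQ₀R : (1 : ℝ) ≤ Q₀ := by exact_mod_cast hQ₀
  rcases Nat.eq_zero_or_pos X with hX0 | hX0
  · rw [hX0, Nat.cast_zero] at hEX
    exact hEX.trans (by positivity)
  have hXR : (1 : ℝ) ≤ X := by exact_mod_cast hX0
  have hXδ : 1 ≤ (X : ℝ) ^ δ := Real.one_le_rpow hXR hδ.le
  have hQ₁R : (Q₀ : ℝ) ≤ Q₁ := le_trans (by nlinarith) hQ
  have hQ₁1 : (1 : ℝ) ≤ Q₁ := hQ₀R.trans hQ₁R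
  have hQ01 : Q₀ ≤ Q₁ := by exact_mod_cast hQ₁R
  -- small `X`
  by_cases hXL : Real.log X ≤ L₀
  · have h1 : (X : ℝ) ≤ Real.exp L₀ := (Real.log_le_iff_le_exp (by linarith)).mp hXL
    calc (E.card : ℝ) ≤ Real.exp L₀ := hEX.trans h1
      _ ≤ Real.exp L₀ * Q₁ := le_mul_of_one_le_right (Real.exp_pos _).le hQ₁1
      _ ≤ _ := mul_le_mul_of_nonneg_right (le_max_right _ _) (by linarith)
  push Not at hXL
  have hL1 : 1 ≤ Real.log X := by
    have : (1 : ℝ) ≤ L₀ := by rw [hL₀]; exact le_max_left _ _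
    linarith
  have hL2 : 2 * C₂ / (κ * δ) ≤ Real.log X := by
    have : 2 * C₂ / (κ * δ) ≤ L₀ := by rw [hL₀]; exact le_max_right _ _
    linarith
  refine le_trans ?_ (mul_le_mul_of_nonneg_right (le_max_left _ _) (by linarith))
  -- large `Q₁`
  by_cases hQX : (X : ℝ) ≤ Q₁
  · linarith
  push Not at hQX
  -- the number of scales
  have hJ : δ * Real.log X - 1 ≤ (scales Q₀ Q₁).card := by
    refine le_trans ?_ (scales_card Q₀ Q₁ hQ₀ hQ01)
    have h1 : δ * Real.log X + Real.log Q₀ ≤ Real.log Q₁ := by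
      rw [← Real.log_rpow (by linarith), ← Real.log_mul (by positivity) (by positivity)]
      exact Real.log_le_log (by positivity) hQ
    have h2 : δ * Real.log X ≤ (Real.log Q₁ - Real.log Q₀) / Real.log 2 := by
      rw [le_div_iff₀ hlog]
      have h3 : 0 ≤ δ * Real.log X := by positivity
      nlinarith
    linarith
  -- the places
  set W := (pls K Q₁).filter fun v => (Ideal.absNorm v.asIdeal).Prime ∧ v ∉ F with hW
  have hWm : ∀ v, v ∈ W ↔ Ideal.absNorm v.asIdeal ≤ Q₁ ∧ (Ideal.absNorm v.asIdeal).Prime ∧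
      v ∉ F := by
    intro v
    rw [hW, mem_filter, mem_pls]
  have hsumW : ∑ v ∈ W, a v ≤ c * (1 + Real.log X) := by
    have h1 : ∑ v ∈ W, a v ≤ ∑ v ∈ pls K Q₁, a v :=
      sum_le_sum_of_subset_of_nonneg (filter_subset _ _) fun v _ _ => ha0 v
    have h2 := (hCM Q₁ (by omega)).1
    have h3 : Real.log Q₁ ≤ Real.log X := Real.log_le_log (by linarith) hQX.le
    have h4 : 0 ≤ Real.log Q₁ := Real.log_natCast_nonneg _
    calc ∑ v ∈ W, a v ≤ CM * (1 + Real.log Q₁) := h1.trans h2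
      _ ≤ c * (1 + Real.log Q₁) := mul_le_mul_of_nonneg_right hcM (by linarith)
      _ ≤ _ := mul_le_mul_of_nonneg_left (by linarith) hc0.le
  -- the bad places of one member
  have hone : ∀ t ∈ E, κ * δ / 2 * Real.log X ≤ ∑ v ∈ W.filter fun v => B t v, a v := by
    intro t ht
    have h1 := hsc (fun v => B t v) Q₀ Q₁ (by
      refine (hE t ht).2.2.trans (le_of_eq ?_)
      congr 2
      unfold scales
      rw [filter_filter]
      refine filter_congr fun j _ => ?_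
      exact and_assoc)
    have h2 : ∑ v ∈ (pls K Q₁).filter fun v => B t v, a v ≤
        ∑ v ∈ W.filter fun v => B t v, a v +
          (∑ v ∈ (pls K Q₁).filter fun v => ¬ (Ideal.absNorm v.asIdeal).Prime, a v +
            ∑ v ∈ F, a v) := by
      have h3 : (pls K Q₁).filter (fun v => B t v) ⊆ (W.filter fun v => B t v) ∪
          (((pls K Q₁).filter fun v => ¬ (Ideal.absNorm v.asIdeal).Prime) ∪ F) := by
        intro v hv
        rw [mem_filter] at hv
        by_cases h4 : (Ideal.absNorm v.asIdeal).Prime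
        · by_cases h5 : v ∈ F
          · exact mem_union_right _ (mem_union_right _ h5)
          · exact mem_union_left _ (mem_filter.mpr ⟨(hWm v).mpr ⟨mem_pls.mp hv.1, h4, h5⟩, hv.2⟩)
        · exact mem_union_right _ (mem_union_left _ (mem_filter.mpr ⟨hv.1, h4⟩))
      have h4 : ∀ s t : Finset (HeightOneSpectrum (𝓞 K)),
          ∑ v ∈ s ∪ t, a v ≤ ∑ v ∈ s, a v + ∑ v ∈ t, a v := by
        intro s t
        rw [← sum_union_inter]
        exact le_add_of_nonneg_right (sum_nonneg fun v _ => ha0 v)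
      refine (sum_le_sum_of_subset_of_nonneg h3 fun v _ _ => ha0 v).trans ?_
      exact (h4 _ _).trans (add_le_add_right (h4 _ _) _)
    have h3 := (hCM Q₁ (by omega)).2
    have h4 : κ * (scales Q₀ Q₁).card - C₁ ≤
        ∑ v ∈ (pls K Q₁).filter fun v => B t v, a v := h1
    have h5 : κ * (δ * Real.log X - 1) ≤ κ * (scales Q₀ Q₁).card :=
      mul_le_mul_of_nonneg_left hJ hκ.le
    have h6 : 2 * C₂ ≤ κ * δ * Real.log X := by
      rw [div_le_iff₀ (by positivity)] at hL2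
      linarith
    rw [← hCF] at h2
    have h7 : ∑ v ∈ (pls K Q₁).filter (fun v => ¬ (Ideal.absNorm v.asIdeal).Prime), a v ≤ CM := h3
    nlinarith
  -- the larger sieve
  have hsieve := hLarger (HeightOneSpectrum (𝓞 K)) X Q₁ d E W (fun v => Ideal.absNorm v.asIdeal)
    (fun v t => B t v) ε hε0 (fun t ht => ⟨(hE t ht).1, (hE t ht).2.1⟩)
    (fun v hv => ⟨((hWm v).mp hv).2.1, ((hWm v).mp hv).1⟩) (by
      intro p
      by_cases hp : p.Prime
      · have h1 := Pool.Agent.W352.ChAbs.over_le (K := K) p hp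
        rw [hd]
        refine le_trans ?_ h1.2
        rw [← Set.ncard_coe_finset]
        refine Set.ncard_le_ncard ?_ h1.1
        intro v hv
        have h2 := (mem_filter.mp (mem_coe.mp hv)).2
        rw [Set.mem_ofPred_eq, ← h2]
        exact Ideal.absNorm_mem _
      · have h2 : W.filter (fun v => Ideal.absNorm v.asIdeal = p) = ∅ := by
          rw [filter_eq_empty_iff]
          intro v hv h
          exact hp (h ▸ ((hWm v).mp hv).2.1)
        rw [h2, card_empty]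
        exact Nat.zero_le _)
    (fun v hv t => hper t v ((hWm v).mp hv).2.1)
    (fun v hv => hfew v ((hWm v).mp hv).2.1 ((hWm v).mp hv).2.2)
  have hlow : (E.card : ℝ) * (κ * δ / 2 * Real.log X) ≤
      ∑ v ∈ W, a v * (E.filter fun t => B t v).card := by
    have h1 : ∑ v ∈ W, a v * ((E.filter fun t => B t v).card : ℝ) =
        ∑ t ∈ E, ∑ v ∈ W.filter fun v => B t v, a v := by
      have h2 : ∀ v ∈ W, a v * ((E.filter fun t => B t v).card : ℝ) =
          ∑ t ∈ E, if B t v then a v else 0 := by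
        intro v _
        rw [← sum_filter, sum_const, nsmul_eq_mul, mul_comm]
      rw [sum_congr rfl h2, sum_comm]
      exact sum_congr rfl fun t _ => (sum_filter _ _).symm
    rw [h1, ← nsmul_eq_mul]
    exact card_nsmul_le_sum _ _ _ hone
  have hlog4 : Real.log 4 ≤ 2 := by
    have h1 : (4 : ℝ) = 2 ^ 2 := by norm_num
    rw [h1, Real.log_pow]
    push_cast
    linarith
  have hb : κ * δ / 2 * Real.log X ≤ κ * δ / 2 * Real.log X := le_rfl
  refine numer (Nat.cast_nonneg _) hL1 hκ hδ hc0 hd0 (by linarith) hε hb ?_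
  have h0 : 0 ≤ (E.card : ℝ) * (κ * δ / 2 * Real.log X) := by positivity
  have h1 := (pow_le_pow_left₀ h0 hlow 2).trans hsieve
  refine h1.trans ?_
  have h2 : 0 ≤ Real.log X := by linarith
  have h3 : (d : ℝ) * (E.card * (Real.log 4 * Q₁) + (E.card : ℝ) ^ 2 * Real.log X) ≤
      d * (E.card * (2 * Q₁) + (E.card : ℝ) ^ 2 * Real.log X) := by
    gcongr
  have h4 : 0 ≤ (d : ℝ) * (E.card * (Real.log 4 * Q₁) + (E.card : ℝ) ^ 2 * Real.log X) := by
    have : 0 ≤ Real.log 4 := Real.log_nonneg (by norm_num)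
    positivity
  have h5 : 0 ≤ c * (1 + Real.log X) := by positivity
  calc ε * (∑ v ∈ W, a v) * (d * (E.card * (Real.log 4 * Q₁) + (E.card : ℝ) ^ 2 * Real.log X)) ≤
      ε * (c * (1 + Real.log X)) *
        (d * (E.card * (Real.log 4 * Q₁) + (E.card : ℝ) ^ 2 * Real.log X)) :=
        mul_le_mul_of_nonneg_right (mul_le_mul_of_nonneg_left hsumW hε0.le) h4
    _ ≤ _ := mul_le_mul_of_nonneg_left h3 (mul_nonneg hε0.le h5)


section

variable {K : Type} [Field K] [NumberField K]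

lemma mem_scales (Q₀ Q₁ j : ℕ) : j ∈ scales Q₀ Q₁ ↔ Q₀ ≤ 2 ^ j ∧ 2 ^ j ≤ Q₁ := by
  unfold scales
  rw [mem_filter, mem_range]
  refine ⟨fun h => h.2, fun h => ⟨?_, h⟩⟩
  have : j < 2 ^ j := Nat.lt_two_pow_self
  omega

open Classical in
lemma card_scales_filter (Q₀ Q₁ : ℕ) (R : ℕ → Prop) :
    Nat.card {j : ℕ // (Q₀ ≤ 2 ^ j ∧ 2 ^ j ≤ Q₁) ∧ R j} =
      ((scales Q₀ Q₁).filter fun j => R j).card := by
  have h4 : {j : ℕ | (Q₀ ≤ 2 ^ j ∧ 2 ^ j ≤ Q₁) ∧ R j}.Finite :=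
    (Finset.finite_toSet (scales Q₀ Q₁)).subset fun j hj =>
      mem_coe.mpr ((mem_scales Q₀ Q₁ j).mpr hj.1)
  have h5 : Nat.card {j : ℕ // (Q₀ ≤ 2 ^ j ∧ 2 ^ j ≤ Q₁) ∧ R j} = h4.toFinset.card :=
    Set.ncard_eq_toFinset_card _ h4
  rw [h5]
  congr 1
  ext j
  rw [Set.Finite.mem_toFinset, Finset.mem_filter, mem_scales]
  rfl

lemma card_scales (Q₀ Q₁ : ℕ) :
    Nat.card {j : ℕ // Q₀ ≤ 2 ^ j ∧ 2 ^ j ≤ Q₁} = (scales Q₀ Q₁).card := by
  have h4 : {j : ℕ | Q₀ ≤ 2 ^ j ∧ 2 ^ j ≤ Q₁}.Finite :=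
    (Finset.finite_toSet (scales Q₀ Q₁)).subset fun j hj =>
      mem_coe.mpr ((mem_scales Q₀ Q₁ j).mpr hj)
  have h5 : Nat.card {j : ℕ // Q₀ ≤ 2 ^ j ∧ 2 ^ j ≤ Q₁} = h4.toFinset.card :=
    Set.ncard_eq_toFinset_card _ h4
  rw [h5]
  congr 1
  ext j
  rw [Set.Finite.mem_toFinset, mem_scales]
  rfl

open Classical in
lemma card_places (P : HeightOneSpectrum (𝓞 K) → Prop) (Q : ℕ) :
    Nat.card {v : HeightOneSpectrum (𝓞 K) // Ideal.absNorm v.asIdeal ≤ Q ∧ P v} =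
      ((pls K Q).filter fun v => P v).card := by
  have h4 : {v : HeightOneSpectrum (𝓞 K) | Ideal.absNorm v.asIdeal ≤ Q ∧ P v}.Finite :=
    (Pool.Agent.W352.ChAbs.finite_le (K := K) Q).subset fun v hv => hv.1
  have h5 : Nat.card {v : HeightOneSpectrum (𝓞 K) // Ideal.absNorm v.asIdeal ≤ Q ∧ P v} =
      h4.toFinset.card := Set.ncard_eq_toFinset_card _ h4
  rw [h5]
  congr 1
  ext v
  rw [Set.Finite.mem_toFinset, Finset.mem_filter, mem_pls]
  rfl

end

open Classical in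
/-- PACKAGE X_LS -/
theorem x_ls : Pool.Agent.Helper62.BX.X_LS := by
  intro K _ _ η δ hη hδ
  obtain ⟨ε, hε, h⟩ := ls_unif Pool.Agent.Q102.AP.larger scale Pool.Agent.Q102.AP.mert K η δ hη hδ
  refine ⟨ε, hε, fun E₀ => ?_⟩
  obtain ⟨C, hC0, hC⟩ := h E₀
  refine ⟨C, hC0, ?_⟩
  intro B hper hfew X Q₀ Q₁ hQ₀ hQ E hE
  have hfin : E.Finite := (Finset.finite_toSet (Finset.Icc 1 X)).subset fun t ht => by
    rw [Finset.mem_coe, Finset.mem_Icc]
    exact ⟨(hE t ht).1, (hE t ht).2.1⟩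
  rw [Set.ncard_eq_toFinset_card _ hfin]
  refine hC B hper ?_ X Q₀ Q₁ hQ₀ hQ hfin.toFinset ?_
  · intro v hv hvE
    refine le_trans (le_of_eq ?_) (hfew v hv hvE)
    rw [← Set.ncard_coe_finset]
    congr 2
    ext t
    simp
  · intro t ht
    rw [Set.Finite.mem_toFinset] at ht
    obtain ⟨h1, h2, h3⟩ := hE t ht
    refine ⟨h1, h2, ?_⟩
    rw [card_scales] at h3
    refine h3.trans (le_of_eq ?_)
    rw [card_scales_filter]
    congr 2
    refine filter_congr fun j _ => ?_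
    rw [card_places]
    rfl

end Pool.Agent.Helper13.BX
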